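import Mathlib

/-! Termwise integration and expansion of `‖∑ z_n‖²`. -/

open Complex MeasureTheory

namespace Pool.Agent.Helper95.BD

theorem hasSum_integral_bdd {ι : Type*} [Countable ι] {u : ι → ℂ} (hu : Summable fun i => ‖u i‖)
    {g : ι → ℝ → ℂ} (hg : ∀ i, Continuous (g i)) (hb : ∀ i y, ‖g i y‖ ≤ 1) (a b : ℝ) :
    HasSum (fun i => u i * ∫ y in a..b, g i y) (∫ y in a..b, ∑' i, u i * g i y) := by
  have hle : ∀ i y, ‖u i * g i y‖ ≤ ‖u i‖ := by
    intro i y
    rw [norm_mul]
    exact mul_le_of_le_one_right (norm_nonneg _) (hb i y)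
  have h := intervalIntegral.hasSum_integral_of_dominated_convergence (μ := volume) (a := a) (b := b)
    (F := fun i y => u i * g i y) (f := fun y => ∑' i, u i * g i y) (fun i _ => ‖u i‖)
    (fun i => ((continuous_const.mul (hg i)).aestronglyMeasurable))
    (fun i => Filter.Eventually.of_forall fun y _ => hle i y)
    (Filter.Eventually.of_forall fun y _ => hu)
    (by simp)
    (Filter.Eventually.of_forall fun y _ =>
      (Summable.of_norm_bounded hu (hle · y)).hasSum)
  refine h.congr_fun ?_ |> fun h => h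
  intro i
  simp
  
theorem normSq_tsum {z : ℕ → ℂ} (hz : Summable fun n => ‖z n‖) :
    ((‖∑' n, z n‖ ^ 2 : ℝ) : ℂ) = ∑' p : ℕ × ℕ, z p.1 * (starRingEnd ℂ) (z p.2) := by
  push_cast
  rw [← mul_conj', conj_tsum, tsum_mul_tsum_of_summable_norm hz (by simpa using hz)]

theorem summable_prod_conj {z : ℕ → ℂ} (hz : Summable fun n => ‖z n‖) :
    Summable fun p : ℕ × ℕ => ‖z p.1 * (starRingEnd ℂ) (z p.2)‖ := by
  have := Summable.mul_norm hz (g := fun n => (starRingEnd ℂ) (z n)) (by simpa using hz)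
  exact this

end Pool.Agent.Helper95.BD
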